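import Pool.Agent.Y272.TY.Stm
import Pool.Agent.TH363.QI.Landau

/-!
Y272-TY CENTRE: a superattracting parameter nearby.
-/

set_option autoImplicit false

open Complex Filter Topology Metric Set

namespace Pool.Agent.Y165.TY

open Pool.Agent.H712R2 Pool.Agent.H713R2 Pool.Agent.Y272.TY

theorem P_at_zero {d : ℕ} (hd : 2 ≤ d) (n : ℕ) : P d n 0 = 0 := by
  induction n with
  | zero => rfl
  | succ n ih => rw [P_succ, ih, zero_pow (by omega), add_zero]

theorem centre : St_Centre := by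
  refine ⟨4 * (|Pool.Agent.TH363.QI.C₁| + 1), by positivity, ?_⟩
  intro d c0 n r hd hn hc0 hP0 hr hball
  set h : ℂ → ℂ := fun c => -(P d n c) ^ d / c with hh
  have hne : ∀ t ∈ ball c0 r, t ≠ 0 := by
    rintro t ht rfl
    exact (hball 0 ht).1 (P_at_zero hd n)
  have hd1 : DifferentiableOn ℂ h (ball c0 r) := by
    intro t ht
    have h1 : DifferentiableAt ℂ (P d n) t := (differentiable_P d n) t
    exact ((h1.pow d).neg.div differentiableAt_id (hne t ht)).differentiableWithinAt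
  have h0 : ∀ t ∈ ball c0 r, h t ≠ 0 := by
    intro t ht
    exact div_ne_zero (neg_ne_zero.2 (pow_ne_zero _ (hball t ht).1)) (hne t ht)
  have h1 : ∀ t ∈ ball c0 r, h t ≠ 1 := by
    intro t ht h2
    apply (hball t ht).2
    rw [hh] at h2
    simp only at h2
    rw [div_eq_one_iff_eq (hne t ht)] at h2
    rw [P_succ]
    linear_combination -h2
  have hderiv : HasDerivAt h (-((d : ℂ) * P d n c0 ^ (d - 1) * deriv (P d n) c0 * c0 -
      P d n c0 ^ d * 1) / c0 ^ 2) c0 := by
    have h2 : HasDerivAt (P d n) (deriv (P d n) c0) c0 := ((differentiable_P d n) c0).hasDerivAt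
    have h3 := ((h2.fun_pow d).neg.fun_div (hasDerivAt_id c0) hc0)
    refine h3.congr_deriv ?_
    simp only [id, Pi.neg_apply]
    ring
  have key := Pool.Agent.TH363.QI.landau hr hd1 h0 h1 hderiv
  have e1 : -((d : ℂ) * P d n c0 ^ (d - 1) * deriv (P d n) c0 * c0 -
      P d n c0 ^ d * 1) / c0 ^ 2 / h c0 = (d : ℂ) * deriv (P d n) c0 / P d n c0 - 1 / c0 := by
    have e2 : P d n c0 ^ d = P d n c0 ^ (d - 1) * P d n c0 := by
      rw [← pow_succ]
      congr 1
      omega
    rw [hh]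
    simp only
    rw [e2]
    have e3 : P d n c0 ^ (d - 1) ≠ 0 := pow_ne_zero _ hP0
    field_simp
  have e2 : ‖h c0‖ = ‖P d n c0‖ ^ d / ‖c0‖ := by
    rw [hh]
    simp only
    rw [norm_div, norm_neg, norm_pow]
  rw [e1, e2] at key
  refine key.trans ?_
  have h4 := le_abs_self Pool.Agent.TH363.QI.C₁
  have h5 := abs_nonneg (Real.log (‖P d n c0‖ ^ d / ‖c0‖))
  have h6 := abs_nonneg Pool.Agent.TH363.QI.C₁
  nlinarith [mul_nonneg h6 h5]

end Pool.Agent.Y165.TY
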