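import Pool.Agent.Y272.TY.Stm

/-!
Y272-TY DLOW: a lower bound for the derivative of the iterates at the points `cc β x`,
`‖x‖ = exp (-4 / d ^ n)`.
-/

set_option autoImplicit false

open Complex Filter Topology Metric Set

namespace Pool.Agent.Y165.TY

open Pool.Agent.H712R2 Pool.Agent.H713R2 Pool.Agent.Y272.TY

theorem exp_three_gt : (20 : ℝ) < Real.exp 3 := by
  have h := Real.exp_one_gt_d9
  have h2 : Real.exp 3 = Real.exp 1 ^ 3 := by
    rw [← Real.exp_nat_mul]; norm_num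
  rw [h2]
  calc (20 : ℝ) < 2.7182818283 ^ 3 := by norm_num
    _ ≤ Real.exp 1 ^ 3 := by gcongr

theorem dlow : St_DLow := by
  intro d β L hd hβ hL n x hx
  have hd0 : (2 : ℝ) ≤ (d : ℝ) := by exact_mod_cast hd
  have hN1 : (1 : ℝ) ≤ (d : ℝ) ^ n := one_le_pow₀ (by linarith)
  have hN : (0 : ℝ) < (d : ℝ) ^ n := by linarith
  have hx' : ‖x‖ = Real.exp (-(4 / (d : ℝ) ^ n)) := hx
  have hxpos : 0 < ‖x‖ := by rw [hx']; exact Real.exp_pos _
  have hx0 : x ≠ 0 := norm_pos_iff.1 hxpos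
  have hxlt : ‖x‖ < 1 := by
    rw [hx', Real.exp_lt_one_iff]
    have : 0 < 4 / (d : ℝ) ^ n := by positivity
    linarith
  -- bound for the logarithm
  have hLb : ∀ y : ℂ, ‖y‖ ≤ Real.exp (-(3 / (d : ℝ) ^ n)) → ‖L n y‖ ≤ 1 / 10 := by
    intro y hy
    have hlt : Real.exp (-(3 / (d : ℝ) ^ n)) < 1 := by
      rw [Real.exp_lt_one_iff]
      have : 0 < 3 / (d : ℝ) ^ n := by positivity
      linarith
    have hy1 : ‖y‖ < 1 := lt_of_le_of_lt hy hlt
    have hb := hL.bound n y (by simpa using hy1)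
    have hexp : d ^ n ≤ d ^ (n + 1) - 1 := by
      have h1 : 1 ≤ d ^ n := Nat.one_le_pow _ _ (by omega)
      have h2 : d ^ n * 2 ≤ d ^ n * d := Nat.mul_le_mul_left _ hd
      rw [pow_succ]
      omega
    have hq : ‖y‖ ^ (d ^ (n + 1) - 1) ≤ 1 / 20 := by
      calc ‖y‖ ^ (d ^ (n + 1) - 1) ≤ ‖y‖ ^ (d ^ n) :=
            pow_le_pow_of_le_one (norm_nonneg _) hy1.le hexp
        _ ≤ Real.exp (-(3 / (d : ℝ) ^ n)) ^ (d ^ n) := by gcongr
        _ = Real.exp (-3) := by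
            rw [← Real.exp_nat_mul]
            congr 1
            push_cast
            field_simp
        _ ≤ 1 / 20 := by
            rw [Real.exp_neg, one_div]
            exact inv_anti₀ (by norm_num) exp_three_gt.le
    have hq0 : 0 ≤ ‖y‖ ^ (d ^ (n + 1) - 1) := by positivity
    refine hb.trans ?_
    rw [div_le_iff₀ (by linarith)]
    have hl := Real.log_two_lt_d9
    have hl0 := Real.log_two_gt_d9
    nlinarith
  -- the function
  have hg : ∀ y : ℂ, y ≠ 0 → ‖y‖ < 1 →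
      P d (n + 1) (cc β y) = (y ^ (d ^ n))⁻¹ * Complex.exp (L n y) := by
    intro y hy0 hy1
    rw [hL.exp n y (by simpa using hy1), BB_eq hd β n y hy0]
    have : y ^ (d ^ n) ≠ 0 := pow_ne_zero _ hy0
    rw [← mul_assoc, inv_mul_cancel₀ this, one_mul]
    rfl
  have hLd : HasDerivAt (L n) (deriv (L n) x) x :=
    ((hL.diff n).differentiableAt (isOpen_ball.mem_nhds (by simpa using hxlt))).hasDerivAt
  have hβd : DifferentiableAt ℂ β x :=
    hβ.diff.differentiableAt (isOpen_ball.mem_nhds (by simpa using hxlt))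
  have hccd : HasDerivAt (cc β) (deriv (cc β) x) x := by
    have h1 : DifferentiableAt ℂ (cc β) x := by
      have : cc β = fun x => x⁻¹ * β x := rfl
      rw [this]
      exact (differentiableAt_inv hx0).mul hβd
    exact h1.hasDerivAt
  have hPd : HasDerivAt (P d (n + 1)) (deriv (P d (n + 1)) (cc β x)) (cc β x) :=
    ((differentiable_P d (n + 1)) (cc β x)).hasDerivAt
  have hcomp := hPd.comp x hccd
  have hgd : HasDerivAt (fun y => P d (n + 1) (cc β y))
      (P d (n + 1) (cc β x) * (-((d : ℂ) ^ n) / x + deriv (L n) x)) x := by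
    have h1 : HasDerivAt (fun y : ℂ => (y ^ (d ^ n))⁻¹ * Complex.exp (L n y))
        (-(((d ^ n : ℕ) : ℂ) * x ^ (d ^ n - 1)) / (x ^ (d ^ n)) ^ 2 * Complex.exp (L n x) +
          (x ^ (d ^ n))⁻¹ * (Complex.exp (L n x) * deriv (L n) x)) x :=
      ((hasDerivAt_pow (d ^ n) x).inv (pow_ne_zero _ hx0)).mul hLd.cexp
    have h2 : (fun y => P d (n + 1) (cc β y)) =ᶠ[𝓝 x]
        fun y : ℂ => (y ^ (d ^ n))⁻¹ * Complex.exp (L n y) := by
      have h3 : {y : ℂ | y ≠ 0 ∧ ‖y‖ < 1} ∈ 𝓝 x := by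
        have h4 : IsOpen {y : ℂ | y ≠ 0 ∧ ‖y‖ < 1} :=
          isOpen_ne.inter (isOpen_lt continuous_norm continuous_const)
        exact h4.mem_nhds ⟨hx0, hxlt⟩
      filter_upwards [h3] with y hy
      exact hg y hy.1 hy.2
    refine (h1.congr_of_eventuallyEq h2).congr_deriv ?_
    rw [hg x hx0 hxlt]
    have h5 : 1 ≤ d ^ n := Nat.one_le_pow _ _ (by omega)
    obtain ⟨k, hk⟩ := Nat.exists_eq_add_of_le' h5
    have hk' : ((d : ℂ) ^ n) = (((k + 1 : ℕ)) : ℂ) := by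
      rw [← hk]; push_cast; rfl
    rw [hk', hk, Nat.add_sub_cancel]
    have hx3 : x ^ k ≠ 0 := pow_ne_zero _ hx0
    rw [pow_succ]
    field_simp
    ring
  have heq := hcomp.unique hgd
  rw [← norm_mul, heq, norm_mul]
  -- Cauchy estimate
  set δ : ℝ := Real.exp (-(3 / (d : ℝ) ^ n)) - Real.exp (-(4 / (d : ℝ) ^ n)) with hδ
  have hδ1 : ‖x‖ / (d : ℝ) ^ n ≤ δ := by
    have h1 : Real.exp (-(3 / (d : ℝ) ^ n)) =
        Real.exp (-(4 / (d : ℝ) ^ n)) * Real.exp (1 / (d : ℝ) ^ n) := by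
      rw [← Real.exp_add]
      congr 1
      ring
    have h2 := Real.add_one_le_exp (1 / (d : ℝ) ^ n)
    rw [hδ, h1, ← hx']
    have h3 : ‖x‖ * (1 / (d : ℝ) ^ n + 1) ≤ ‖x‖ * Real.exp (1 / (d : ℝ) ^ n) := by gcongr
    have h4 : ‖x‖ / (d : ℝ) ^ n = ‖x‖ * (1 / (d : ℝ) ^ n) := by ring
    rw [h4]
    linarith
  have hδ0 : 0 < δ := lt_of_lt_of_le (by positivity) hδ1
  have hnorm : ∀ y ∈ closedBall x δ, ‖y‖ ≤ Real.exp (-(3 / (d : ℝ) ^ n)) := by
    intro y hy
    rw [mem_closedBall, dist_eq_norm] at hy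
    have : ‖y‖ ≤ ‖x‖ + ‖y - x‖ := by
      calc ‖y‖ = ‖x + (y - x)‖ := by ring_nf
        _ ≤ _ := norm_add_le _ _
    rw [hx'] at this
    linarith
  have hlt3 : Real.exp (-(3 / (d : ℝ) ^ n)) < 1 := by
    rw [Real.exp_lt_one_iff]
    have : 0 < 3 / (d : ℝ) ^ n := by positivity
    linarith
  have hcau : ‖deriv (L n) x‖ ≤ (1 / 10) / δ := by
    apply Complex.norm_deriv_le_of_forall_mem_sphere_norm_le hδ0
    · apply DifferentiableOn.diffContOnCl
      rw [closure_ball x hδ0.ne']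
      refine (hL.diff n).mono ?_
      intro y hy
      have := hnorm y hy
      simp only [mem_ball, dist_zero_right]
      linarith
    · intro z hz
      exact hLb z (hnorm z (sphere_subset_closedBall hz))
  have hL' : ‖deriv (L n) x‖ ≤ (1 / 10) * ((d : ℝ) ^ n / ‖x‖) := by
    refine hcau.trans ?_
    rw [div_eq_mul_inv]
    apply mul_le_mul_of_nonneg_left _ (by norm_num)
    rw [← inv_div]
    exact inv_anti₀ (by positivity) hδ1
  have hmain : (9 / 10) * ((d : ℝ) ^ n / ‖x‖) ≤ ‖-((d : ℂ) ^ n) / x + deriv (L n) x‖ := by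
    have h1 : ‖-((d : ℂ) ^ n) / x‖ = (d : ℝ) ^ n / ‖x‖ := by
      rw [norm_div, norm_neg, norm_pow, Complex.norm_natCast]
    have h2 := norm_sub_le (-((d : ℂ) ^ n) / x + deriv (L n) x) (deriv (L n) x)
    rw [add_sub_cancel_right, h1] at h2
    linarith
  have hgx : 2 ≤ ‖P d (n + 1) (cc β x)‖ := by
    rw [hg x hx0 hxlt, norm_mul, norm_inv, norm_pow, Complex.norm_exp, hx', ← Real.exp_nat_mul,
      ← Real.exp_neg, ← Real.exp_add]
    have h1 : -(((d ^ n : ℕ) : ℝ) * -(4 / (d : ℝ) ^ n)) = 4 := by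
      push_cast
      field_simp
    rw [h1]
    have h2 : ‖L n x‖ ≤ 1 / 10 := hLb x (hnorm x (mem_closedBall_self hδ0.le))
    have h3 := Complex.abs_re_le_norm (L n x)
    have h4 := abs_le.1 (h3.trans h2)
    have h5 := Real.add_one_le_exp (4 + (L n x).re)
    linarith [h4.1]
  have hfrac : (d : ℝ) ^ n ≤ (d : ℝ) ^ n / ‖x‖ := by
    rw [le_div_iff₀ hxpos]
    nlinarith
  calc (d : ℝ) ^ n ≤ 2 * ((9 / 10) * ((d : ℝ) ^ n / ‖x‖)) := by linarith
    _ ≤ ‖P d (n + 1) (cc β x)‖ * ‖-((d : ℂ) ^ n) / x + deriv (L n) x‖ := by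
        apply mul_le_mul hgx hmain (by positivity) (norm_nonneg _)

end Pool.Agent.Y165.TY
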